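import Pool.Agent.GEN.StmtsZC

/-! GEN, row CNS: confluence for `S1`. -/

set_option autoImplicit false

namespace Pool.Agent.GEN.H34

open PowerSeries Finset Pool.Agent.Helper6_Mono Pool.Agent.Helper30_Simp Pool.Agent.Helper30_Simp2

section

variable {σ : Type} {A : Type} [CommRing A]

/-- the left side of the relation of `K` for `I` -/
noncomputable def rh (X : A) (z : Finset (σ →₀ ℕ) → A) (I : Finset (σ →₀ ℕ)) (K : Finset σ) : A :=
  ∑ K' ∈ K.powerset, (1 - X) ^ K'.card * X ^ (K.card - K'.card) * z (keep I K K')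

open scoped Classical in
lemma rh_split (X : A) (z : Finset (σ →₀ ℕ) → A) (I : Finset (σ →₀ ℕ)) (D L : Finset σ)
    (hL : L ⊆ D) (h3 : ∀ a b : Finset σ, a ⊆ L → b ⊆ D \ L →
      keep (keep I (D \ L) b) L a = keep I D (a ∪ b)) :
    rh X z I D = ∑ b ∈ (D \ L).powerset,
      (1 - X) ^ b.card * X ^ ((D \ L).card - b.card) * rh X z (keep I (D \ L) b) L := by
  have h1 : ∀ b ∈ (D \ L).powerset,
      (1 - X) ^ b.card * X ^ ((D \ L).card - b.card) * rh X z (keep I (D \ L) b) L =
      ∑ a ∈ L.powerset, (1 - X) ^ (a ∪ b).card * X ^ (D.card - (a ∪ b).card) *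
        z (keep I D (a ∪ b)) := by
    intro b hb
    rw [Finset.mem_powerset] at hb
    unfold rh
    rw [Finset.mul_sum]
    refine Finset.sum_congr rfl fun a ha => ?_
    rw [Finset.mem_powerset] at ha
    rw [h3 a b ha hb]
    have hdis : Disjoint a b :=
      Finset.disjoint_of_subset_left ha
        (Finset.disjoint_of_subset_right hb Finset.disjoint_sdiff)
    have hc : (a ∪ b).card = a.card + b.card := Finset.card_union_of_disjoint hdis
    have hc1 : a.card ≤ L.card := Finset.card_le_card ha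
    have hc2 : b.card ≤ (D \ L).card := Finset.card_le_card hb
    have hc3 : (D \ L).card + L.card = D.card := Finset.card_sdiff_add_card_eq_card hL
    have hc4 : D.card - (a ∪ b).card = ((D \ L).card - b.card) + (L.card - a.card) := by omega
    rw [hc4, hc, pow_add, pow_add]
    ring
  rw [Finset.sum_congr rfl h1, ← Finset.sum_product']
  unfold rh
  refine Finset.sum_nbij' (fun K' => (K' \ L, K' ∩ L)) (fun q => q.2 ∪ q.1) ?_ ?_ ?_ ?_ ?_
  · intro K' hK'
    rw [Finset.mem_powerset] at hK'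
    rw [Finset.mem_product]
    exact ⟨Finset.mem_powerset.2 (Finset.sdiff_subset_sdiff hK' subset_rfl),
      Finset.mem_powerset.2 Finset.inter_subset_right⟩
  · intro q hq
    rw [Finset.mem_product, Finset.mem_powerset, Finset.mem_powerset] at hq
    exact Finset.mem_powerset.2
      (Finset.union_subset (hq.2.trans hL) (hq.1.trans Finset.sdiff_subset))
  · intro K' _
    show (K' ∩ L) ∪ (K' \ L) = K'
    rw [Finset.union_comm]
    exact Finset.sdiff_union_inter K' L
  · intro q hq
    rw [Finset.mem_product, Finset.mem_powerset, Finset.mem_powerset] at hq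
    refine Prod.ext ?_ ?_
    · show (q.2 ∪ q.1) \ L = q.1
      ext i
      rw [Finset.mem_sdiff, Finset.mem_union]
      constructor
      · rintro ⟨h | h, h'⟩
        · exact absurd (hq.2 h) h'
        · exact h
      · intro h
        exact ⟨Or.inr h, (Finset.mem_sdiff.1 (hq.1 h)).2⟩
    · show (q.2 ∪ q.1) ∩ L = q.2
      ext i
      rw [Finset.mem_inter, Finset.mem_union]
      constructor
      · rintro ⟨h | h, h'⟩
        · exact h
        · exact absurd h' (Finset.mem_sdiff.1 (hq.1 h)).2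
      · intro h
        exact ⟨Or.inl h, hq.2 h⟩
  · intro K' _
    show _ = (1 - X) ^ ((K' ∩ L) ∪ (K' \ L)).card * X ^ (D.card - ((K' ∩ L) ∪ (K' \ L)).card) *
        z (keep I D ((K' ∩ L) ∪ (K' \ L)))
    have h4 : (K' ∩ L) ∪ (K' \ L) = K' := by
      rw [Finset.union_comm]
      exact Finset.sdiff_union_inter K' L
    rw [h4]

end

lemma one_sub_X_ne : (1 - X : ℤ⟦X⟧) ≠ 0 := by
  intro h
  have h1 := congrArg (constantCoeff (R := ℤ)) h
  rw [map_sub, map_one, constantCoeff_X, map_zero] at h1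
  norm_num at h1

open scoped Classical in
lemma stab_union {σ : Type} {M I : Finset (σ →₀ ℕ)} (hS : S1 M) (hI : I ⊆ M) {K L : Finset σ}
    (hK : Stab I K) (hL : Stab I L) : Stab I (K ∪ L) := by
  refine ⟨?_, ?_, ?_⟩
  · obtain ⟨i, hi⟩ := hK.1
    exact ⟨i, Finset.mem_union_left L hi⟩
  · intro α hα
    have hle : ∀ j ∈ K ∪ L, α j ≤ 1 := by
      intro j hj
      rcases Finset.mem_union.1 hj with h | h
      · exact (Finset.single_le_sum (f := fun j => α j) (fun _ _ => Nat.zero_le _) h).trans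
          (hK.2.1 α hα)
      · exact (Finset.single_le_sum (f := fun j => α j) (fun _ _ => Nat.zero_le _) h).trans
          (hL.2.1 α hα)
    by_cases h0 : ∀ j ∈ K ∪ L, α j = 0
    · rw [Finset.sum_eq_zero h0]
      exact Nat.zero_le _
    · push Not at h0
      obtain ⟨j, hj, hj0⟩ := h0
      have hj1 : α j = 1 := by
        have := hle j hj
        omega
      rw [Finset.sum_eq_single_of_mem j hj]
      · exact hj1.le
      · intro i hi hij
        have h1 := hle i hi
        have h2 : α i ≠ 1 := fun h => hij (hS α (hI hα) i j h hj1)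
        omega
  · intro j hj
    rcases Finset.mem_union.1 hj with h | h
    · exact hK.2.2 j h
    · exact hL.2.2 j h

theorem cns (dcb : DcbStmt) : CnsStmt := by
  classical
  intro σ _ M hS J z c hyp
  -- one step
  have step : ∀ (I : Finset (σ →₀ ℕ)) (D L : Finset σ), I ⊆ M →
      (∀ I' : Finset (σ →₀ ℕ), I'.card < I.card → I' ⊆ M → KS I' L → rh (X : ℤ⟦X⟧) z I' L = c) →
      Stab I D → L ⊆ D → KS I L →
      rh (X : ℤ⟦X⟧) z I D = c + (1 - X) ^ (D \ L).card * (rh (X : ℤ⟦X⟧) z I L - c) := by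
    intro I D L hIM ih hD hLD hKS
    obtain ⟨_, h2, h3, h4, h5⟩ := dcb σ I J
    rw [rh_split (X : ℤ⟦X⟧) z I D L hLD (fun a b ha hb => h3 D L a b hLD ha hb)]
    have hocc : ∀ j ∈ D \ L, ∃ α ∈ I, α j ≠ 0 := by
      intro j hj
      obtain ⟨α, hα, hα1⟩ := hD.2.2 j (Finset.mem_sdiff.1 hj).1
      exact ⟨α, hα, by rw [hα1]; exact one_ne_zero⟩
    have h6 : ∀ b ∈ (D \ L).powerset,
        (1 - X : ℤ⟦X⟧) ^ b.card * X ^ ((D \ L).card - b.card) *
          rh (X : ℤ⟦X⟧) z (keep I (D \ L) b) L =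
        (1 - X : ℤ⟦X⟧) ^ b.card * X ^ ((D \ L).card - b.card) * c +
          if b = D \ L then (1 - X) ^ (D \ L).card * (rh (X : ℤ⟦X⟧) z I L - c) else 0 := by
      intro b hb
      rw [Finset.mem_powerset] at hb
      by_cases hbe : b = D \ L
      · rw [if_pos hbe, hbe, (h2 (D \ L) (D \ L)).2, Nat.sub_self, pow_zero]
        ring
      · rw [if_neg hbe, add_zero, ih (keep I (D \ L) b) (h4 (D \ L) b hocc hb hbe)
          ((h2 (D \ L) b).1.trans hIM) (h5 D L b hD hLD hKS hb)]
    rw [Finset.sum_congr rfl h6, Finset.sum_add_distrib, ← Finset.sum_mul,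
      Finset.sum_pow_mul_eq_add_pow, Finset.sum_ite_eq',
      if_pos (Finset.mem_powerset.2 subset_rfl)]
    have h7 : (1 - X + X : ℤ⟦X⟧) = 1 := by ring
    rw [h7, one_pow, one_mul]
  have main : ∀ m : ℕ, ∀ I : Finset (σ →₀ ℕ), I.card = m → I ⊆ M → ∀ K : Finset σ,
      Disjoint K J → KS I K → rh (X : ℤ⟦X⟧) z I K = c := by
    intro m
    induction m using Nat.strong_induction_on with
    | _ m ih =>
      intro I hIm hIM K hKJ hKS
      have hred : Red I J := ⟨K, hKJ, hKS⟩
      obtain ⟨hcJ, hcS⟩ := Kc_spec hred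
      have hD : Stab I (K ∪ Kc I J) := stab_union hS hIM hKS.1 hcS.1
      have ih' : ∀ L : Finset σ, Disjoint L J → ∀ I' : Finset (σ →₀ ℕ), I'.card < I.card →
          I' ⊆ M → KS I' L → rh (X : ℤ⟦X⟧) z I' L = c := by
        intro L hLJ I' hI' hI'M hKS'
        exact ih I'.card (by omega) I' rfl hI'M L hLJ hKS'
      have h1 := step I (K ∪ Kc I J) (Kc I J) hIM (ih' _ hcJ) hD Finset.subset_union_right hcS
      have h2 := step I (K ∪ Kc I J) K hIM (ih' _ hKJ) hD Finset.subset_union_left hKS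
      have h3 : rh (X : ℤ⟦X⟧) z I (Kc I J) = c := hyp I hIM hred
      rw [h3, sub_self, mul_zero, add_zero] at h1
      rw [h1] at h2
      have h4 : (1 - X : ℤ⟦X⟧) ^ ((K ∪ Kc I J) \ K).card * (rh (X : ℤ⟦X⟧) z I K - c) = 0 := by
        have h5 := congrArg (fun y => y - c) h2
        simp only [sub_self, add_sub_cancel_left] at h5
        exact h5.symm
      rcases mul_eq_zero.1 h4 with h5 | h5
      · exact absurd h5 (pow_ne_zero _ one_sub_X_ne)
      · exact sub_eq_zero.1 h5
  intro I K hIM hKJ hKS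
  exact main I.card I rfl hIM K hKJ hKS

end Pool.Agent.GEN.H34
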