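import Pool.Agent.GEN.StmtsZ
import Pool.Agent.Helper73_Simp2.Zalg

/-! GEN, row KPR: weak stable sets or a root. -/

set_option autoImplicit false

namespace Pool.Agent.GEN.H34

open Finset Pool.Agent.Helper6_Mono Pool.Agent.Helper30_Simp Pool.Agent.Helper30_Simp2

lemma dot_int {σ : Type} [Fintype σ] (u : σ → ℕ) (α : σ →₀ ℕ) :
    ((dot u α : ℕ) : ℤ) = ∑ i, (u i : ℤ) * (α i : ℤ) := by
  unfold dot
  push_cast
  rfl

lemma clear_den {σ : Type} [Fintype σ] (v : σ → ℚ) :
    ∃ (d : ℕ) (w : σ → ℤ), d ≠ 0 ∧ ∀ i, (w i : ℚ) = (d : ℚ) * v i := by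
  classical
  refine ⟨∏ j, (v j).den, fun i => (∏ j ∈ univ.erase i, ((v j).den : ℤ)) * (v i).num, ?_,
    fun i => ?_⟩
  · exact Finset.prod_ne_zero_iff.2 fun j _ => (v j).den_nz
  · rw [← Finset.mul_prod_erase univ (fun j => (v j).den) (Finset.mem_univ i)]
    push_cast
    have h := Rat.mul_den_eq_num (v i)
    rw [← h]
    ring

theorem kpr (hK : KpaStmt) : KprStmt := by
  classical
  intro σ _ M hS1 x
  by_cases hA : KAll M x
  · exact Or.inl hA
  right
  unfold KAll at hA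
  push Not at hA
  obtain ⟨κ, N, ⟨hκ, S, hflat, hin⟩, hno⟩ := hA
  have hsum := hflat κ N hin
  have hpos : 0 < ∑ i, κ i := by
    obtain ⟨i, hi⟩ := Function.ne_iff.1 hκ
    exact Finset.sum_pos' (fun _ _ => Nat.zero_le _)
      ⟨i, Finset.mem_univ i, Nat.pos_of_ne_zero hi⟩
  have hposq : (0 : ℚ) < ((∑ i, κ i : ℕ) : ℚ) := by exact_mod_cast hpos
  have hN : N ≠ 0 := by
    rintro rfl
    rw [Nat.cast_zero, mul_zero] at hsum
    exact hposq.ne' hsum
  have hM : M.Nonempty := by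
    by_contra hne
    have hne' : ∀ β, β ∈ M → False := fun β hβ => hne ⟨β, hβ⟩
    have h1 : InK M S κ (N + 1) := by
      refine ⟨fun ρ => ?_, fun ρ hρ => ?_⟩
      · rcases ρ with i | α
        · exact hin.1 (Sum.inl i)
        · exact (hne' _ α.2).elim
      · rcases ρ with i | α
        · exact hin.2 (Sum.inl i) hρ
        · exact (hne' _ α.2).elim
    have h2 := hflat κ (N + 1) h1
    rw [hsum] at h2
    push_cast at h2
    have hx : x = 0 := by linarith only [h2]
    rw [hx, zero_mul] at hsum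
    exact hposq.ne' hsum
  have hmin : ∀ α ∈ M, N ≤ dot κ α := by
    intro α hα
    have h1 := hin.1 (Sum.inr ⟨α, hα⟩)
    simp only [slk] at h1
    omega
  have hmem : ∀ α, α ∈ fce M κ ↔ α ∈ M ∧ dot κ α = N := by
    intro α
    unfold fce
    rw [Finset.mem_filter]
    constructor
    · rintro ⟨h1, h2⟩
      refine ⟨h1, ?_⟩
      have h3 := (H73.face_iff hflat hin hκ ⟨α, h1⟩).1 h2
      simp only [slk] at h3
      omega
    · rintro ⟨h1, h2⟩
      refine ⟨h1, (H73.face_iff hflat hin hκ ⟨α, h1⟩).2 ?_⟩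
      simp only [slk]
      omega
  have hInon : (fce M κ).Nonempty := by
    obtain ⟨β, hβ, hb⟩ := Finset.exists_min_image M (fun α => dot κ α) hM
    refine ⟨β, ?_⟩
    unfold fce
    rw [Finset.mem_filter]
    exact ⟨hβ, hβ, hb⟩
  obtain ⟨B, hBI, hind, hspan, hpriv⟩ := hK σ (fce M κ) (univ.filter fun j => κ j ≠ 0)
    (fun α hα i j hi hj => hS1 α ((hmem α).1 hα).1 i j hi hj)
    (fun K hKT => hno K fun j hj => (Finset.mem_filter.1 (hKT hj)).2)
  refine ⟨κ, N, B, Nat.pos_of_ne_zero hN, hmin, fun α hα => ((hmem α).1 (hBI hα)).1, ?_,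
    fun α hα => ((hmem α).1 (hBI hα)).2, ?_, ?_, ?_, hsum⟩
  · -- nonempty
    by_contra hne
    rw [Finset.not_nonempty_iff_eq_empty] at hne
    obtain ⟨β, hβ⟩ := hInon
    have h1 := hspan (fun i => (κ i : ℚ))
      (fun α hα => absurd hα (by rw [hne]; exact Finset.notMem_empty _)) β hβ
    have h2 := ((hmem β).1 hβ).2
    have h3 : ((dot κ β : ℕ) : ℚ) = ∑ i, (κ i : ℚ) * (β i : ℚ) := by
      unfold dot
      push_cast
      rfl
    rw [← h3, h2] at h1
    exact hN (by exact_mod_cast h1)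
  · -- independence
    intro t ht
    have h1 := hind (fun α => (t α : ℚ)) (fun j => by
      have h2 := ht j
      have h3 : ((∑ α, t α * (((α : σ →₀ ℕ) j : ℕ) : ℤ) : ℤ) : ℚ) = 0 := by
        rw [h2, Int.cast_zero]
      rw [← h3]
      push_cast
      rfl)
    funext α
    have h2 := congrFun h1 α
    rw [Pi.zero_apply] at h2 ⊢
    exact_mod_cast h2
  · -- flat
    intro v hv0 hvB
    have hvI := hspan v hvB
    obtain ⟨d, w, hd, hw⟩ := clear_den v
    have hdq : (d : ℚ) ≠ 0 := by exact_mod_cast hd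
    have hw0 : ∀ i, κ i = 0 → w i = 0 := by
      intro i hi
      have h1 := hw i
      rw [hv0 i hi, mul_zero] at h1
      exact_mod_cast h1
    have hwI : ∀ α ∈ fce M κ, ∑ i, w i * (α i : ℤ) = 0 := by
      intro α hα
      have h1 := hvI α hα
      have h2 : ((∑ i, w i * (α i : ℤ) : ℤ) : ℚ) = 0 := by
        push_cast
        calc ∑ i, (w i : ℚ) * (α i : ℚ) = ∑ i, (d : ℚ) * (v i * (α i : ℚ)) :=
              Finset.sum_congr rfl fun i _ => by rw [hw i, mul_assoc]
          _ = 0 := by rw [← Finset.mul_sum, h1, mul_zero]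
      exact_mod_cast h2
    set n : ℕ := ∑ i, (w i).natAbs + ∑ α ∈ M, (∑ i, w i * (α i : ℤ)).natAbs with hn
    have hn1 : ∀ i, (w i).natAbs ≤ n := fun i =>
      (Finset.single_le_sum (f := fun i => (w i).natAbs) (fun _ _ => Nat.zero_le _)
        (Finset.mem_univ i)).trans (Nat.le_add_right _ _)
    have hn2 : ∀ α ∈ M, (∑ i, w i * (α i : ℤ)).natAbs ≤ n := fun α hα =>
      (Finset.single_le_sum (f := fun α : σ →₀ ℕ => (∑ i, w i * (α i : ℤ)).natAbs)
        (fun _ _ => Nat.zero_le _) hα).trans (Nat.le_add_left _ _)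
    have hu0 : ∀ i, 0 ≤ (n : ℤ) * (κ i : ℤ) + w i := by
      intro i
      by_cases hi : κ i = 0
      · rw [hw0 i hi, hi]
        simp
      · have h1 : (1 : ℤ) ≤ (κ i : ℤ) := by exact_mod_cast Nat.one_le_iff_ne_zero.2 hi
        have h2 : (n : ℤ) * 1 ≤ (n : ℤ) * (κ i : ℤ) :=
          mul_le_mul_of_nonneg_left h1 (Int.natCast_nonneg n)
        have h3 := hn1 i
        omega
    have hu : ∀ i, (((((n : ℤ) * (κ i : ℤ) + w i).toNat : ℕ)) : ℤ)
        = (n : ℤ) * (κ i : ℤ) + w i := fun i => Int.toNat_of_nonneg (hu0 i)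
    have hdot : ∀ α : σ →₀ ℕ,
        ((dot (fun i => ((n : ℤ) * (κ i : ℤ) + w i).toNat) α : ℕ) : ℤ)
          = (n : ℤ) * ((dot κ α : ℕ) : ℤ) + ∑ i, w i * (α i : ℤ) := by
      intro α
      rw [dot_int, dot_int, Finset.mul_sum, ← Finset.sum_add_distrib]
      refine Finset.sum_congr rfl fun i _ => ?_
      rw [hu i]
      ring
    have htight : ∀ α ∈ M, dot κ α = N →
        ((dot (fun i => ((n : ℤ) * (κ i : ℤ) + w i).toNat) α : ℕ) : ℤ) - ((n * N : ℕ) : ℤ)
          = 0 := by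
      intro α hα h1
      rw [hdot α, h1, hwI α ((hmem α).2 ⟨hα, h1⟩)]
      push_cast
      ring
    have hin' : InK M S (fun i => ((n : ℤ) * (κ i : ℤ) + w i).toNat) (n * N) := by
      refine ⟨fun ρ => ?_, fun ρ hρ => ?_⟩
      · rcases ρ with i | α
        · exact Int.natCast_nonneg _
        · show 0 ≤ ((dot (fun i => ((n : ℤ) * (κ i : ℤ) + w i).toNat)
            (α : σ →₀ ℕ) : ℕ) : ℤ) - ((n * N : ℕ) : ℤ)
          by_cases h1 : dot κ (α : σ →₀ ℕ) = N
          · rw [htight α α.2 h1]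
          · rw [hdot]
            have h2 := hmin α α.2
            have h3 : (N : ℤ) + 1 ≤ ((dot κ (α : σ →₀ ℕ) : ℕ) : ℤ) := by omega
            have h4 : (n : ℤ) * ((N : ℤ) + 1) ≤ (n : ℤ) * ((dot κ (α : σ →₀ ℕ) : ℕ) : ℤ) :=
              mul_le_mul_of_nonneg_left h3 (Int.natCast_nonneg n)
            have h5 := hn2 α α.2
            have h6 : -(n : ℤ) ≤ ∑ i, w i * ((α : σ →₀ ℕ) i : ℤ) := by omega
            push_cast
            linarith only [h4, h6]
      · have h1 := hin.2 ρ hρ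
        rcases ρ with i | α
        · simp only [slk] at h1
          have h2 : κ i = 0 := by exact_mod_cast h1
          show (((((n : ℤ) * (κ i : ℤ) + w i).toNat : ℕ)) : ℤ) = 0
          rw [hu i, hw0 i h2, h2]
          simp
        · simp only [slk] at h1
          exact htight α α.2 (by omega)
    have h1 := hflat _ _ hin'
    have h2 : ((∑ i, ((n : ℤ) * (κ i : ℤ) + w i).toNat : ℕ) : ℤ)
        = (n : ℤ) * ((∑ i, κ i : ℕ) : ℤ) + ∑ i, w i := by
      push_cast
      rw [Finset.mul_sum, ← Finset.sum_add_distrib]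
      refine Finset.sum_congr rfl fun i _ => ?_
      rw [← hu i]
      rfl
    have h3 : ((∑ i, ((n : ℤ) * (κ i : ℤ) + w i).toNat : ℕ) : ℚ)
        = (n : ℚ) * ((∑ i, κ i : ℕ) : ℚ) + ((∑ i, w i : ℤ) : ℚ) := by exact_mod_cast h2
    rw [h3, hsum] at h1
    have h4 : ((∑ i, w i : ℤ) : ℚ) = 0 := by
      push_cast at h1 ⊢
      linarith only [h1]
    have h5 : (d : ℚ) * ∑ i, v i = 0 := by
      rw [← h4, Finset.mul_sum]
      push_cast
      exact Finset.sum_congr rfl fun i _ => (hw i).symm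
    exact (mul_eq_zero.1 h5).resolve_left hdq
  · -- private coordinates
    intro A hA j hj hAj hβ
    obtain ⟨β, h1, h2, h3⟩ := hpriv A hA j (Finset.mem_filter.2 ⟨Finset.mem_univ j, hj⟩) hAj
    exact absurd (hβ β h1 h2) h3

end Pool.Agent.GEN.H34
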